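import Mathlib
import Pool.Agent.H50.G.B.R528.RM.UniformFinal
import Pool.Agent.H50.G.B.R528.RM.ERFinal
set_option autoImplicit false
set_option linter.unusedSectionVars false

/-! # Adapted random sets in intervals of length `(log x)^s` -/

open MeasureTheory Filter Set
open scoped Topology ENNReal

namespace Pool.Agent.R301.RM

open Pool.Agent.R528.RM

/-! ### Deterministic facts on counts -/

lemma cntR_finite (S : Set ℕ) (x H : ℝ) : {a : ℕ | a ∈ S ∧ x < a ∧ (a : ℝ) ≤ x + H}.Finite := by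
  refine (Set.finite_Iic ⌊x + H⌋₊).subset ?_
  rintro a ⟨_, _, h⟩
  exact Nat.le_floor h

lemma cntR_mono (S : Set ℕ) (x : ℝ) {H H' : ℝ} (h : H ≤ H') : cntR S x H ≤ cntR S x H' := by
  apply Set.ncard_le_ncard _ (cntR_finite S x H')
  rintro a ⟨h1, h2, h3⟩
  exact ⟨h1, h2, by linarith⟩

lemma cntR_zero (S : Set ℕ) (x : ℝ) : cntR S x 0 = 0 := by
  unfold cntR
  rw [Set.ncard_eq_zero (cntR_finite S x 0)]
  ext a
  simp only [mem_ofPred_eq, mem_empty_iff_false, iff_false, not_and]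
  intro _ h1 h2
  linarith

lemma cntR_add (S : Set ℕ) (x : ℝ) {H H' : ℝ} (h : 0 ≤ H) (h' : 0 ≤ H') :
    cntR S x (H + H') = cntR S x H + cntR S (x + H) H' := by
  unfold cntR
  rw [← Set.ncard_union_eq _ (cntR_finite S x H) (cntR_finite S (x + H) H')]
  · congr 1
    ext a
    constructor
    · rintro ⟨h1, h2, h3⟩
      rcases le_or_gt (a : ℝ) (x + H) with h4 | h4
      · exact Or.inl ⟨h1, h2, h4⟩
      · exact Or.inr ⟨h1, h4, by linarith⟩
    · rintro (⟨h1, h2, h3⟩ | ⟨h1, h2, h3⟩)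
      · exact ⟨h1, h2, by linarith⟩
      · exact ⟨h1, by linarith, by linarith⟩
  · rw [Set.disjoint_left]
    rintro a ⟨_, _, h3⟩ ⟨_, h5, _⟩
    linarith

lemma cntR_sum (S : Set ℕ) (x : ℝ) {h : ℝ} (hh : 0 ≤ h) (K : ℕ) :
    cntR S x (K * h) = ∑ i ∈ Finset.range K, cntR S (x + i * h) h := by
  induction K with
  | zero => simp [cntR_zero]
  | succ K ih =>
    rw [Finset.sum_range_succ, ← ih, ← cntR_add S x (by positivity) hh]
    congr 1
    push_cast
    ring

lemma pigeon_lt (S : Set ℕ) (x : ℝ) {h c : ℝ} (hh : 0 ≤ h) (K : ℕ)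
    (H : (cntR S x (K * h) : ℝ) < K * c) : ∃ i < K, (cntR S (x + i * h) h : ℝ) < c := by
  by_contra hcon
  push Not at hcon
  have h1 : (K : ℝ) * c ≤ ∑ i ∈ Finset.range K, (cntR S (x + i * h) h : ℝ) := by
    calc (K : ℝ) * c = ∑ i ∈ Finset.range K, c := by simp
      _ ≤ _ := Finset.sum_le_sum fun i hi => hcon i (Finset.mem_range.1 hi)
  rw [cntR_sum S x hh K] at H
  push_cast at H
  linarith

lemma pigeon_gt (S : Set ℕ) (x : ℝ) {h c : ℝ} (hh : 0 ≤ h) (K : ℕ)
    (H : K * c < (cntR S x (K * h) : ℝ)) : ∃ i < K, c < (cntR S (x + i * h) h : ℝ) := by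
  by_contra hcon
  push Not at hcon
  have h1 : ∑ i ∈ Finset.range K, (cntR S (x + i * h) h : ℝ) ≤ (K : ℝ) * c := by
    calc ∑ i ∈ Finset.range K, (cntR S (x + i * h) h : ℝ) ≤ ∑ i ∈ Finset.range K, c :=
          Finset.sum_le_sum fun i hi => hcon i (Finset.mem_range.1 hi)
      _ = _ := by simp
  rw [cntR_sum S x hh K] at H
  push_cast at H
  linarith

/-- the ratio of the number of members of `S` in `(x, x + (log x)^s]` to `(log x)^s / log x` -/
noncomputable def RR (S : Set ℕ) (s x : ℝ) : ℝ :=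
  Real.log x / Real.log x ^ s * cntR S x (Real.log x ^ s)

/-- elementary facts for large `x` -/
lemma pow_facts {s lam : ℝ} (hs0 : 0 < s) (hs : s < 2) (hlam : 0 < lam) : ∀ᶠ x : ℝ in atTop,
    2 ≤ Real.log x ∧ lam * Real.log x ^ 2 ≤ x ∧ 2 * Real.log x ^ s ≤ lam * Real.log x ^ 2 ∧
      ∀ x', x ≤ x' → x' ≤ 2 * x →
        Real.log x ≤ Real.log x' ∧ Real.log x' ≤ 2 * Real.log x ∧
        Real.log x ^ s ≤ Real.log x' ^ s ∧ Real.log x' ^ s ≤ 2 * Real.log x ^ s := by
  have h1 : ∀ᶠ x : ℝ in atTop, lam * Real.log x ^ 2 ≤ x := by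
    have h2 := (Real.isLittleO_pow_log_id_atTop (n := 2)).def (show (0 : ℝ) < 1 / lam by positivity)
    filter_upwards [h2, eventually_ge_atTop 1] with x h2 h3
    rw [Real.norm_of_nonneg (by positivity), id, Real.norm_of_nonneg (by linarith)] at h2
    calc lam * Real.log x ^ 2 ≤ lam * (1 / lam * x) := mul_le_mul_of_nonneg_left h2 hlam.le
      _ = x := by field_simp
  have h2 : ∀ᶠ x : ℝ in atTop, 2 / lam ≤ Real.log x ^ (2 - s) :=
    ((tendsto_rpow_atTop (show 0 < 2 - s by linarith)).comp Real.tendsto_log_atTop).eventually_ge_atTop _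
  filter_upwards [h1, h2, Real.tendsto_log_atTop.eventually_ge_atTop 2, eventually_ge_atTop 1] with x h1 h2 h3 h4
  have hl0 : 0 < Real.log x := by linarith
  refine ⟨h3, h1, ?_, ?_⟩
  · have h5 : Real.log x ^ 2 = Real.log x ^ s * Real.log x ^ (2 - s) := by
      rw [← Real.rpow_add hl0]
      norm_num
    rw [h5]
    rw [div_le_iff₀ hlam] at h2
    have h6 : 0 < Real.log x ^ s := Real.rpow_pos_of_pos hl0 _
    calc 2 * Real.log x ^ s ≤ (Real.log x ^ (2 - s) * lam) * Real.log x ^ s :=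
          mul_le_mul_of_nonneg_right h2 h6.le
      _ = _ := by ring
  · intro x' hx1 hx2
    have g1 : Real.log x ≤ Real.log x' := Real.log_le_log (by linarith) hx1
    have g2 : Real.log x' ≤ Real.log (2 * x) := Real.log_le_log (by linarith) hx2
    rw [Real.log_mul (by norm_num) (by linarith)] at g2
    have g3 := Real.log_two_lt_d9
    have g4 : Real.log x' ≤ (7 / 5) * Real.log x := by linarith
    refine ⟨g1, by linarith, Real.rpow_le_rpow hl0.le g1 hs0.le, ?_⟩
    calc Real.log x' ^ s ≤ ((7 / 5) * Real.log x) ^ s := Real.rpow_le_rpow (by linarith) g4 hs0.le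
      _ = (7 / 5) ^ s * Real.log x ^ s := Real.mul_rpow (by norm_num) hl0.le
      _ ≤ 2 * Real.log x ^ s := by
          apply mul_le_mul_of_nonneg_right _ (Real.rpow_nonneg hl0.le _)
          calc ((7 : ℝ) / 5) ^ s ≤ (7 / 5) ^ (2 : ℝ) :=
                Real.rpow_le_rpow_of_exponent_le (by norm_num) hs.le
            _ ≤ 2 := by
                rw [Real.rpow_two]
                norm_num

/-- few members in some long interval give few members in some short interval -/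
lemma small_of_small {S : Set ℕ} {s lam : ℝ} (hs0 : 0 < s) (hs : s < 2) (hlam : 0 < lam) {ε : ℝ}
    (hε : 0 < ε)
    (h : ∃ᶠ x : ℕ in atTop, (cntR S x (lam * Real.log x ^ 2) : ℝ) < ε * lam * Real.log x) :
    ∃ᶠ x : ℝ in atTop, RR S s x < 8 * ε := by
  rw [frequently_atTop]
  intro a
  have h1 := h.and_eventually (tendsto_natCast_atTop_atTop.eventually ((pow_facts hs0 hs hlam).and (eventually_ge_atTop a)))
  obtain ⟨n, h2, ⟨h3, h4, h5, h6⟩, h7⟩ := h1.exists
  obtain ⟨x, hx⟩ : ∃ x : ℝ, x = n := ⟨_, rfl⟩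
  rw [← hx] at h2 h3 h4 h5 h6 h7
  have hl0 : 0 < Real.log x := by linarith
  have hP : 0 < Real.log x ^ s := Real.rpow_pos_of_pos hl0 _
  set h' : ℝ := 2 * Real.log x ^ s with hh'
  have hh0 : 0 < h' := by positivity
  set T : ℝ := lam * Real.log x ^ 2 with hT
  have hT0 : 0 < T := by positivity
  set K : ℕ := ⌊T / h'⌋₊ with hK
  have hTh : 1 ≤ T / h' := by
    rw [one_le_div hh0]
    exact h5
  have hK1 : (K : ℝ) * h' ≤ T := by
    have := Nat.floor_le (show 0 ≤ T / h' by positivity)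
    rwa [← hK, le_div_iff₀ hh0] at this
  have hK2 : T ≤ 2 * (K * h') := by
    have g1 := Nat.lt_floor_add_one (T / h')
    have g2 : (1 : ℝ) ≤ K := by
      have : 1 ≤ K := by
        rw [hK, Nat.one_le_floor_iff]
        exact hTh
      exact_mod_cast this
    rw [← hK, div_lt_iff₀ hh0] at g1
    nlinarith
  obtain ⟨i, hi, g1⟩ := pigeon_lt S x (c := 2 * h' * ε / Real.log x) hh0.le K (by
    refine lt_of_le_of_lt (Nat.cast_le.2 (cntR_mono S x hK1)) (h2.trans_le ?_)
    have e : (K : ℝ) * (2 * h' * ε / Real.log x) = 2 * (K * h') * ε / Real.log x := by ring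
    rw [e, le_div_iff₀ hl0]
    calc ε * lam * Real.log x * Real.log x = T * ε := by rw [hT]; ring
      _ ≤ 2 * (K * h') * ε := mul_le_mul_of_nonneg_right hK2 hε.le)
  have hi' : (i : ℝ) * h' ≤ T := by
    refine le_trans ?_ hK1
    exact mul_le_mul_of_nonneg_right (by exact_mod_cast hi.le) hh0.le
  have hih : 0 ≤ (i : ℝ) * h' := by positivity
  obtain ⟨f1, f2, f3, f4⟩ := h6 (x + i * h') (by linarith) (by linarith)
  refine ⟨x + i * h', by linarith, ?_⟩
  set y := x + i * h' with hy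
  have hly : 0 < Real.log y := by linarith
  have hPy : 0 < Real.log y ^ s := Real.rpow_pos_of_pos hly _
  have g2 : (cntR S y (Real.log y ^ s) : ℝ) < 2 * h' * ε / Real.log x :=
    lt_of_le_of_lt (Nat.cast_le.2 (cntR_mono S y f4)) g1
  unfold RR
  calc Real.log y / Real.log y ^ s * cntR S y (Real.log y ^ s)
      < Real.log y / Real.log y ^ s * (2 * h' * ε / Real.log x) :=
        mul_lt_mul_of_pos_left g2 (by positivity)
    _ = 4 * ε * (Real.log y / Real.log x) * (Real.log x ^ s / Real.log y ^ s) := by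
        rw [hh']
        field_simp
        ring
    _ ≤ 4 * ε * 2 * 1 := by
        have e1 : Real.log y / Real.log x ≤ 2 := by
          rw [div_le_iff₀ hl0]
          exact f2
        have e2 : Real.log x ^ s / Real.log y ^ s ≤ 1 := by
          rw [div_le_one hPy]
          exact f3
        have e3 : 0 ≤ Real.log x ^ s / Real.log y ^ s := by positivity
        apply mul_le_mul _ e2 e3 (by positivity)
        exact mul_le_mul_of_nonneg_left e1 (by positivity)
    _ = 8 * ε := by ring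

/-- many members in some long interval give many members in some short interval -/
lemma large_of_large {S : Set ℕ} {s lam : ℝ} (hs0 : 0 < s) (hs : s < 2) (hlam : 0 < lam) {M : ℝ}
    (hM : 0 < M)
    (h : ∃ᶠ x : ℕ in atTop, M * lam * Real.log x < (cntR S x (lam * Real.log x ^ 2) : ℝ)) :
    ∃ᶠ x : ℝ in atTop, M / 4 < RR S s x := by
  rw [frequently_atTop]
  intro a
  have h1 := h.and_eventually (tendsto_natCast_atTop_atTop.eventually ((pow_facts hs0 hs hlam).and (eventually_ge_atTop a)))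
  obtain ⟨n, h2, ⟨h3, h4, h5, h6⟩, h7⟩ := h1.exists
  obtain ⟨x, hx⟩ : ∃ x : ℝ, x = n := ⟨_, rfl⟩
  rw [← hx] at h2 h3 h4 h5 h6 h7
  have hl0 : 0 < Real.log x := by linarith
  have hP : 0 < Real.log x ^ s := Real.rpow_pos_of_pos hl0 _
  set h' : ℝ := Real.log x ^ s with hh'
  set T : ℝ := lam * Real.log x ^ 2 with hT
  have hT0 : 0 < T := by positivity
  set K : ℕ := ⌈T / h'⌉₊ with hK
  have hK1 : T ≤ (K : ℝ) * h' := by
    have := Nat.le_ceil (T / h')
    rwa [← hK, div_le_iff₀ hP] at this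
  have hK2 : K * h' ≤ 2 * T := by
    have g1 := Nat.ceil_lt_add_one (show 0 ≤ T / h' by positivity)
    rw [← hK, ← sub_lt_iff_lt_add, lt_div_iff₀ hP] at g1
    linarith
  obtain ⟨i, hi, g1⟩ := pigeon_gt S x (c := M * h' / (2 * Real.log x)) hP.le K (by
    refine lt_of_lt_of_le ?_ (Nat.cast_le.2 (cntR_mono S x hK1))
    refine lt_of_le_of_lt ?_ h2
    have e : (K : ℝ) * (M * h' / (2 * Real.log x)) = M * (K * h') / (2 * Real.log x) := by ring
    rw [e, div_le_iff₀ (by positivity)]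
    calc M * (K * h') ≤ M * (2 * T) := mul_le_mul_of_nonneg_left hK2 hM.le
      _ = M * lam * Real.log x * (2 * Real.log x) := by rw [hT]; ring)
  have hi' : (i : ℝ) * h' ≤ T := by
    rw [hK, Nat.lt_ceil, lt_div_iff₀ hP] at hi
    exact hi.le
  have hih : 0 ≤ (i : ℝ) * h' := by positivity
  obtain ⟨f1, f2, f3, f4⟩ := h6 (x + i * h') (by linarith) (by linarith)
  refine ⟨x + i * h', by linarith, ?_⟩
  set y := x + i * h' with hy
  have hly : 0 < Real.log y := by linarith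
  have hPy : 0 < Real.log y ^ s := Real.rpow_pos_of_pos hly _
  have g2 : M * h' / (2 * Real.log x) < (cntR S y (Real.log y ^ s) : ℝ) :=
    lt_of_lt_of_le g1 (Nat.cast_le.2 (cntR_mono S y f3))
  unfold RR
  calc M / 4 = M / 2 * 1 * (1 / 2) := by ring
    _ ≤ M / 2 * (Real.log y / Real.log x) * (h' / Real.log y ^ s) := by
        have e1 : 1 ≤ Real.log y / Real.log x := by
          rw [one_le_div hl0]
          exact f1
        have e2 : 1 / 2 ≤ h' / Real.log y ^ s := by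
          rw [le_div_iff₀ hPy]
          linarith
        apply mul_le_mul _ e2 (by norm_num) (by positivity)
        exact mul_le_mul_of_nonneg_left e1 (by positivity)
    _ = Real.log y / Real.log y ^ s * (M * h' / (2 * Real.log x)) := by
        field_simp
    _ < Real.log y / Real.log y ^ s * cntR S y (Real.log y ^ s) :=
        mul_lt_mul_of_pos_left g2 (by positivity)

/-! ### The random part -/

variable {Ω : Type} {m0 : MeasurableSpace Ω} {μ : Measure Ω} [IsProbabilityMeasure μ]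
  {ℱ : Filtration ℕ m0} {A : ℕ → Set Ω}

lemma II_pos_of_gt {a : ℝ} (ha : 1 < a) : 0 < II a := by
  have h := II_mono le_rfl ha
  have h1 : II 1 = 0 := by unfold II; simp
  linarith

lemma II_exp_one : (1 : ℝ) * II (Real.exp 1) = 1 := by
  unfold II
  rw [Real.log_exp]
  ring

lemma cnt_eq_cntR {lam : ℝ} (hlam : 0 < lam) (x : ℕ) (ω : Ω) :
    cnt A x (wl lam x) ω = cntR (rset A ω) x (lam * Real.log x ^ 2) := by
  rw [cnt_eq_ncard, ← window_set lam hlam]
  unfold cntR rset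
  congr 1
  ext b
  simp only [mem_ofPred_eq, Nat.cast_lt]

/-- uniformly in `(log x)^2 = o(H)`, `H ≤ x` -/
theorem unif (hA : ∀ n, MeasurableSet[ℱ n] (A n))
    (hd : ∀ᵐ ω ∂μ, Tendsto (fun n : ℕ => dens μ ℱ A n ω * Real.log n) atTop (𝓝 1)) :
    ∀ᵐ ω ∂μ, ∀ ε : ℝ, 0 < ε → ∃ C : ℝ, ∀ᶠ x : ℝ in atTop, ∀ H, C * Real.log x ^ 2 ≤ H → H ≤ x →
      |(cntR (rset A ω) x H : ℝ) * Real.log x / H - 1| < ε := by
  have h1 : ∀ n : ℕ, ∀ᵐ ω ∂μ, ∀ ε : ℝ, 0 < ε →
      (∀ᶠ x : ℝ in atTop, ∀ H, (1 / II (1 + 1 / ((n : ℝ) + 1))) * Real.log x ^ 2 ≤ H → H ≤ x →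
        |(cntR (rset A ω) x H : ℝ) * Real.log x / H - 1| < (1 + 1 / ((n : ℝ) + 1)) - 1 + ε) ∧
      (∃ᶠ x : ℝ in atTop, ∃ H, (1 / II (1 + 1 / ((n : ℝ) + 1))) * Real.log x ^ 2 ≤ H ∧ H ≤ x ∧
        (1 + 1 / ((n : ℝ) + 1)) - 1 - ε < |(cntR (rset A ω) x H : ℝ) * Real.log x / H - 1|) := by
    intro n
    have h2 : 0 < 1 / ((n : ℝ) + 1) := by positivity
    have h3 := II_pos_of_gt (show 1 < 1 + 1 / ((n : ℝ) + 1) by linarith)
    exact uni_law hA hd (by positivity) (by linarith) (one_div_mul_cancel h3.ne')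
  filter_upwards [ae_all_iff.2 h1] with ω h ε hε
  obtain ⟨n, hn⟩ := exists_nat_one_div_lt (show 0 < ε / 2 by positivity)
  refine ⟨1 / II (1 + 1 / ((n : ℝ) + 1)), ?_⟩
  filter_upwards [(h n (ε / 2) (by positivity)).1] with x hx H h1 h2
  refine (hx H h1 h2).trans ?_
  linarith

/-- the law for the exponent two -/
theorem two_law (hA : ∀ n, MeasurableSet[ℱ n] (A n))
    (hd : ∀ᵐ ω ∂μ, Tendsto (fun n : ℕ => dens μ ℱ A n ω * Real.log n) atTop (𝓝 1)) :
    ∀ᵐ ω ∂μ, ∀ ε : ℝ, 0 < ε →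
      (∀ᶠ x : ℝ in atTop, ∀ H, 1 * Real.log x ^ 2 ≤ H → H ≤ x →
        |(cntR (rset A ω) x H : ℝ) * Real.log x / H - 1| < Real.exp 1 - 1 + ε) ∧
      (∃ᶠ x : ℕ in atTop, (Real.exp 1 - ε) * 1 * Real.log x < cntR (rset A ω) x (1 * Real.log x ^ 2)) ∧
      (∃ᶠ x : ℕ in atTop, (cntR (rset A ω) x (1 * Real.log x ^ 2) : ℝ) < ε * 1 * Real.log x) := by
  have he : 1 < Real.exp 1 := by
    have := Real.exp_one_gt_d9
    linarith
  filter_upwards [uni_law hA hd one_pos he II_exp_one,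
    er_final hA hd one_pos he II_exp_one le_rfl one_pos (Or.inl ⟨le_rfl, rfl⟩)] with ω h1 h2 ε hε
  obtain ⟨-, h3, -, h4⟩ := h2 ε hε
  refine ⟨(h1 ε hε).1, ?_, ?_⟩
  · refine h3.mono fun x hx => ?_
    rwa [cnt_eq_cntR one_pos] at hx
  · refine h4.mono fun x hx => ?_
    rwa [cnt_eq_cntR one_pos, zero_add] at hx

/-- arbitrarily dense long intervals -/
theorem dense_law (hA : ∀ n, MeasurableSet[ℱ n] (A n))
    (hd : ∀ᵐ ω ∂μ, Tendsto (fun n : ℕ => dens μ ℱ A n ω * Real.log n) atTop (𝓝 1)) :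
    ∀ᵐ ω ∂μ, ∀ M : ℝ, ∃ lam M' : ℝ, 0 < lam ∧ 0 < M' ∧ M ≤ M' ∧
      ∃ᶠ x : ℕ in atTop, M' * lam * Real.log x < cntR (rset A ω) x (lam * Real.log x ^ 2) := by
  have h1 : ∀ n : ℕ, ∀ᵐ ω ∂μ, ∃ᶠ x : ℕ in atTop,
      ((n : ℝ) + 2) * (1 / II ((n : ℝ) + 3)) * Real.log x <
        cntR (rset A ω) x ((1 / II ((n : ℝ) + 3)) * Real.log x ^ 2) := by
    intro n
    have hn : (0 : ℝ) ≤ n := Nat.cast_nonneg n
    have h3 : 1 ≤ II ((n : ℝ) + 3) := by
      have h4 : 1 ≤ Real.log ((n : ℝ) + 3) := by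
        rw [Real.le_log_iff_exp_le (by positivity)]
        have := Real.exp_one_lt_d9
        linarith
      unfold II
      nlinarith
    have hlam : 0 < 1 / II ((n : ℝ) + 3) := by positivity
    have hl1 : 1 / II ((n : ℝ) + 3) ≤ 1 := by
      rw [div_le_one (by linarith)]
      exact h3
    have h5 := er_final (μ := μ) hA hd hlam (show 1 < (n : ℝ) + 3 by linarith) (by field_simp) le_rfl one_pos
      (Or.inl ⟨hl1, rfl⟩)
    filter_upwards [h5] with ω h5
    obtain ⟨-, h6, -, -⟩ := h5 1 one_pos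
    refine h6.mono fun x hx => ?_
    rw [cnt_eq_cntR hlam] at hx
    have e : (n : ℝ) + 3 - 1 = n + 2 := by ring
    rwa [e] at hx
  filter_upwards [ae_all_iff.2 h1] with ω h M
  obtain ⟨n, hn⟩ := exists_nat_ge M
  have hn0 : (0 : ℝ) ≤ n := Nat.cast_nonneg n
  exact ⟨_, (n : ℝ) + 2, one_div_pos.2 (II_pos_of_gt (by linarith)), by linarith, by linarith, h n⟩

/-- **the exact values of the lower and upper limits for all exponents** -/
theorem pow_law (hA : ∀ n, MeasurableSet[ℱ n] (A n))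
    (hd : ∀ᵐ ω ∂μ, Tendsto (fun n : ℕ => dens μ ℱ A n ω * Real.log n) atTop (𝓝 1)) :
    ∀ᵐ ω ∂μ,
      (∀ s : ℝ, 2 < s → Tendsto (RR (rset A ω) s) atTop (𝓝 1)) ∧
      ((∀ ε : ℝ, 0 < ε → ∀ᶠ x : ℝ in atTop, RR (rset A ω) 2 x < Real.exp 1 + ε) ∧
       (∀ ε : ℝ, 0 < ε → ∃ᶠ x : ℝ in atTop, Real.exp 1 - ε < RR (rset A ω) 2 x) ∧
       (∀ ε : ℝ, 0 < ε → ∃ᶠ x : ℝ in atTop, RR (rset A ω) 2 x < ε)) ∧
      (∀ s : ℝ, 0 < s → s < 2 →
        (∀ ε : ℝ, 0 < ε → ∃ᶠ x : ℝ in atTop, RR (rset A ω) s x < ε) ∧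
        (∀ M : ℝ, ∃ᶠ x : ℝ in atTop, M < RR (rset A ω) s x)) := by
  filter_upwards [unif hA hd, two_law hA hd, dense_law hA hd] with ω h1 h2 h3
  have hlt : Tendsto Real.log atTop atTop := Real.tendsto_log_atTop
  refine ⟨fun s hs => ?_, ⟨fun ε hε => ?_, fun ε hε => ?_, fun ε hε => ?_⟩, fun s hs0 hs => ⟨fun ε hε => ?_, fun M => ?_⟩⟩
  · rw [Metric.tendsto_nhds]
    intro ε hε
    obtain ⟨C, hC⟩ := h1 ε hε
    have e1 : ∀ᶠ x : ℝ in atTop, C ≤ Real.log x ^ (s - 2) :=
      ((tendsto_rpow_atTop (show 0 < s - 2 by linarith)).comp hlt).eventually_ge_atTop _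
    have e2 : ∀ᶠ x : ℝ in atTop, Real.log x ^ s ≤ x := by
      have := (isLittleO_log_rpow_rpow_atTop s (show (0 : ℝ) < 1 by norm_num)).def (show (0 : ℝ) < 1 by norm_num)
      filter_upwards [this, eventually_ge_atTop 1] with x hx hx1
      have hl := Real.log_nonneg hx1
      rw [Real.norm_of_nonneg (Real.rpow_nonneg hl _), Real.rpow_one, Real.norm_of_nonneg (by linarith)] at hx
      linarith
    filter_upwards [hC, e1, e2, hlt.eventually_ge_atTop 1] with x hx g1 g2 g3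
    have hl0 : 0 < Real.log x := by linarith
    have g4 : Real.log x ^ s = Real.log x ^ (s - 2) * Real.log x ^ 2 := by
      rw [← Real.rpow_two, ← Real.rpow_add hl0]
      norm_num
    have g5 := hx (Real.log x ^ s) (by
      rw [g4]
      exact mul_le_mul_of_nonneg_right g1 (by positivity)) g2
    rw [Real.dist_eq]
    have g6 : RR (rset A ω) s x = (cntR (rset A ω) x (Real.log x ^ s) : ℝ) * Real.log x / Real.log x ^ s := by
      unfold RR
      ring
    rw [g6]
    exact g5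
  · have e2 : ∀ᶠ x : ℝ in atTop, 1 * Real.log x ^ 2 ≤ x := by
      have := (Real.isLittleO_pow_log_id_atTop (n := 2)).def (show (0 : ℝ) < 1 by norm_num)
      filter_upwards [this, eventually_ge_atTop 1] with x hx hx1
      rw [Real.norm_of_nonneg (by positivity), id, Real.norm_of_nonneg (by linarith)] at hx
      linarith
    filter_upwards [(h2 ε hε).1, e2] with x hx g2
    have g5 := (abs_lt.1 (hx (1 * Real.log x ^ 2) le_rfl g2)).2
    have g6 : RR (rset A ω) 2 x = (cntR (rset A ω) x (1 * Real.log x ^ 2) : ℝ) * Real.log x / (1 * Real.log x ^ 2) := by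
      unfold RR
      rw [Real.rpow_two, one_mul]
      ring
    rw [g6]
    linarith
  · have g := ((h2 ε hε).2.1).and_eventually (tendsto_natCast_atTop_atTop.eventually (hlt.eventually_ge_atTop 1))
    refine (tendsto_natCast_atTop_atTop (R := ℝ)).frequently (g.mono ?_)
    rintro x ⟨g1, g2⟩
    have hl0 : 0 < Real.log (x : ℝ) := by linarith
    unfold RR
    rw [Real.rpow_two, one_mul] at *
    have e : Real.log (x : ℝ) / Real.log x ^ 2 = 1 / Real.log x := by field_simp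
    rw [e, one_div, inv_mul_eq_div, lt_div_iff₀ hl0]
    linarith
  · have g := ((h2 ε hε).2.2).and_eventually (tendsto_natCast_atTop_atTop.eventually (hlt.eventually_ge_atTop 1))
    refine (tendsto_natCast_atTop_atTop (R := ℝ)).frequently (g.mono ?_)
    rintro x ⟨g1, g2⟩
    have hl0 : 0 < Real.log (x : ℝ) := by linarith
    unfold RR
    rw [Real.rpow_two, one_mul] at *
    have e : Real.log (x : ℝ) / Real.log x ^ 2 = 1 / Real.log x := by field_simp
    rw [e, one_div, inv_mul_eq_div, div_lt_iff₀ hl0]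
    linarith
  · have g := small_of_small hs0 hs one_pos (show 0 < ε / 8 by positivity) ((h2 (ε / 8) (by positivity)).2.2)
    refine g.mono fun x hx => ?_
    linarith
  · obtain ⟨lam, M', hlam, hM', hMM, g⟩ := h3 (4 * M)
    refine (large_of_large hs0 hs hlam hM' g).mono fun x hx => ?_
    linarith

/-! ### Lower and upper limits -/

lemma limsup_ofReal_eq {u : ℝ → ℝ} {c : ℝ} (h1 : ∀ ε : ℝ, 0 < ε → ∀ᶠ x : ℝ in atTop, u x < c + ε)
    (h2 : ∀ ε : ℝ, 0 < ε → ∃ᶠ x : ℝ in atTop, c - ε < u x) :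
    limsup (fun x => ENNReal.ofReal (u x)) atTop = ENNReal.ofReal c := by
  apply le_antisymm
  · rw [limsup_le_iff]
    intro y hy
    obtain ⟨r, hr0, hr1, hr2⟩ := ENNReal.lt_iff_exists_real_btwn.1 hy
    have hcr : c < r := by
      by_contra hcon
      push Not at hcon
      exact absurd (ENNReal.ofReal_le_ofReal hcon) (not_le.2 hr1)
    filter_upwards [h1 (r - c) (by linarith)] with x hx
    refine lt_of_le_of_lt (ENNReal.ofReal_le_ofReal ?_) hr2
    linarith
  · rw [le_limsup_iff]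
    intro y hy
    obtain ⟨r, hr0, hr1, hr2⟩ := ENNReal.lt_iff_exists_real_btwn.1 hy
    have hcr : r < c := by
      by_contra hcon
      push Not at hcon
      exact absurd (ENNReal.ofReal_le_ofReal hcon) (not_le.2 hr2)
    refine (h2 (c - r) (by linarith)).mono fun x hx => ?_
    refine lt_of_lt_of_le hr1 (ENNReal.ofReal_le_ofReal ?_)
    linarith

lemma limsup_ofReal_top {u : ℝ → ℝ} (h : ∀ M : ℝ, ∃ᶠ x : ℝ in atTop, M < u x) :
    limsup (fun x => ENNReal.ofReal (u x)) atTop = ⊤ := by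
  rw [eq_top_iff, le_limsup_iff]
  intro y hy
  obtain ⟨r, hr0, hr1, hr2⟩ := ENNReal.lt_iff_exists_real_btwn.1 hy
  refine (h r).mono fun x hx => ?_
  exact lt_of_lt_of_le hr1 (ENNReal.ofReal_le_ofReal hx.le)

lemma liminf_ofReal_zero {u : ℝ → ℝ} (h : ∀ ε : ℝ, 0 < ε → ∃ᶠ x : ℝ in atTop, u x < ε) :
    liminf (fun x => ENNReal.ofReal (u x)) atTop = 0 := by
  rw [← nonpos_iff_eq_zero, liminf_le_iff]
  intro y hy
  obtain ⟨r, hr0, hr1, hr2⟩ := ENNReal.lt_iff_exists_real_btwn.1 hy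
  have hr : 0 < r := ENNReal.ofReal_pos.1 hr1
  refine (h r hr).mono fun x hx => ?_
  exact lt_of_le_of_lt (ENNReal.ofReal_le_ofReal hx.le) hr2

end Pool.Agent.R301.RM
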